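import Mathlib
import Pool.Agent.LeoK.StrStmts

set_option autoImplicit false

open NumberField Module Polynomial

namespace Pool.Agent.LeoK.H77

/-- The conjugation of a quadratic extension. -/
theorem exists_conj {k F : Type} [Field k] [NumberField k] [Field F] [NumberField F] [Algebra k F]
    {m : 𝓞 k} {s : F} (hF : finrank k F = 2) (hs : s ^ 2 = -algebraMap k F (m : k))
    (hn : ∀ x : k, x ^ 2 ≠ -(m : k)) :
    ∃ c : F ≃ₐ[k] F, c s = -s ∧ (∀ x, c (c x) = x) ∧
      (∀ x : F, c x = x → ∃ q : k, algebraMap k F q = x) := by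
  have : Algebra.IsQuadraticExtension k F := ⟨hF⟩
  have : IsGalois k F := inferInstance
  have h1 : ∃ c : F ≃ₐ[k] F, c s ≠ s := by
    by_contra hcon
    push Not at hcon
    obtain ⟨q, hq⟩ := (IsGalois.mem_range_algebraMap_iff_fixed s).mpr hcon
    apply hn q
    apply (algebraMap k F).injective
    rw [map_pow, hq, hs, map_neg]
  obtain ⟨c, hc⟩ := h1
  have hcs : c s = -s := by
    have h2 : (c s) ^ 2 = s ^ 2 := by
      rw [← map_pow, hs, map_neg, AlgEquiv.commutes]
    rcases sq_eq_sq_iff_eq_or_eq_neg.mp h2 with h | h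
    · exact absurd h hc
    · exact h
  have hcard : Fintype.card (F ≃ₐ[k] F) = 2 := by
    rw [← Nat.card_eq_fintype_card, IsGalois.card_aut_eq_finrank, hF]
  have hc1 : c ≠ 1 := by
    rintro rfl
    exact hc rfl
  classical
  have huniv : (Finset.univ : Finset (F ≃ₐ[k] F)) = {1, c} := by
    symm
    apply Finset.eq_univ_of_card
    rw [Finset.card_pair (Ne.symm hc1), hcard]
  have hall : ∀ g : F ≃ₐ[k] F, g = 1 ∨ g = c := by
    intro g
    have := Finset.mem_univ g
    rw [huniv] at this
    simpa using this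
  refine ⟨c, hcs, ?_, ?_⟩
  · intro x
    have h2 : c * c = 1 := by
      rcases hall (c * c) with h | h
      · exact h
      · exact absurd (mul_eq_left.mp h) hc1
    have h3 := AlgEquiv.congr_fun h2 x
    simpa using h3
  · intro x hx
    apply (IsGalois.mem_range_algebraMap_iff_fixed x).mpr
    intro g
    rcases hall g with rfl | rfl
    · rfl
    · exact hx

/-- If `m` is squarefree and `m y²` is integral then so is `y`. -/
theorem int_of_sqf {k : Type} [Field k] [NumberField k] {m : 𝓞 k} (hm0 : m ≠ 0)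
    (hsf : Squarefree (Ideal.span {m})) {y : k} (h : IsIntegral ℤ ((m : k) * y ^ 2)) :
    ∃ y' : 𝓞 k, (y' : k) = y := by
  have hz : IsIntegral ℤ ((m : k) * y) := by
    apply IsIntegral.of_pow (n := 2) two_pos
    have e : ((m : k) * y) ^ 2 = (m : k) * ((m : k) * y ^ 2) := by ring
    rw [e]
    exact (RingOfIntegers.isIntegral_coe m).mul h
  obtain ⟨z, hzz⟩ : ∃ z : 𝓞 k, (z : k) = (m : k) * y := ⟨⟨_, hz⟩, rfl⟩
  obtain ⟨n, hnn⟩ : ∃ n : 𝓞 k, (n : k) = (m : k) * y ^ 2 := ⟨⟨_, h⟩, rfl⟩
  have hzn : z ^ 2 = m * n := by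
    apply RingOfIntegers.ext
    change algebraMap (𝓞 k) k (z ^ 2) = algebraMap (𝓞 k) k (m * n)
    rw [map_pow, map_mul]
    change (z : k) ^ 2 = (m : k) * (n : k)
    rw [hzz, hnn]; ring
  have hdvd : Ideal.span {m} ∣ (Ideal.span {z}) ^ 2 := by
    rw [Ideal.span_singleton_pow, hzn, Ideal.dvd_iff_le, Ideal.span_singleton_le_span_singleton]
    exact Dvd.intro _ rfl
  have h1 : Ideal.span {m} ∣ Ideal.span {z} := (hsf.dvd_pow_iff_dvd two_ne_zero).1 hdvd
  rw [Ideal.dvd_iff_le, Ideal.span_singleton_le_span_singleton] at h1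
  obtain ⟨w, hw⟩ := h1
  refine ⟨w, ?_⟩
  have hm' : (m : k) ≠ 0 := by
    intro h0
    exact hm0 (RingOfIntegers.ext (by rw [h0]; simp))
  apply mul_left_cancel₀ hm'
  rw [← hzz, hw]
  simp

/-- An element of `k` integral in `F` is an algebraic integer. -/
theorem int_down {k F : Type} [Field k] [NumberField k] [Field F] [NumberField F] [Algebra k F]
    {y : k} (h : IsIntegral ℤ (algebraMap k F y)) : IsIntegral ℤ y :=
  (isIntegral_algebraMap_iff (algebraMap k F).injective).1 h

/-- QUA. -/
theorem qua : QuaStmt := by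
  intro k F _ _ _ _ _ m s hF hs hn hsf hq
  have hm0 : m ≠ 0 := by
    intro h0
    apply hn 0
    rw [h0]; simp
  have hs0 : s ≠ 0 := by
    intro h0
    rw [h0] at hs
    have h1 : algebraMap k F (m : k) = 0 := by linear_combination hs
    have h2 := (map_eq_zero (algebraMap k F)).1 h1
    exact hm0 (RingOfIntegers.ext (by rw [h2]; simp))
  obtain ⟨c, hcs, hcc, hfix⟩ := exists_conj hF hs hn
  have hsub : ∀ x : 𝓞 F, ∃ y : 𝓞 k, (x : F) - c x = algebraMap k F (y : k) * s := by
    intro x
    have hfx : c (((x : F) - c x) / s) = ((x : F) - c x) / s := by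
      rw [map_div₀, map_sub, hcc, hcs]
      field_simp
      ring
    obtain ⟨y, hy⟩ := hfix _ hfx
    have hxy : (x : F) - c x = algebraMap k F y * s := by
      rw [hy]; field_simp
    have hint : IsIntegral ℤ ((x : F) - c x) :=
      (RingOfIntegers.isIntegral_coe x).sub
        (map_isIntegral_int c.toRingEquiv.toRingHom (RingOfIntegers.isIntegral_coe x))
    have hmy : algebraMap k F ((m : k) * y ^ 2) = -((x : F) - c x) ^ 2 := by
      rw [hxy, mul_pow, hs, map_mul, map_pow]; ring
    have h2 : IsIntegral ℤ ((m : k) * y ^ 2) := by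
      apply int_down (F := F)
      rw [hmy]
      exact (hint.pow 2).neg
    obtain ⟨y', hy'⟩ := int_of_sqf hm0 hsf h2
    exact ⟨y', by rw [hy', hxy]⟩
  refine ⟨c, hcs, hsub, ?_⟩
  obtain ⟨q, r, hr⟩ := hq
  have hrk : (q : k) ^ 2 + (m : k) = 4 * (r : k) := by
    have := congrArg (algebraMap (𝓞 k) k) hr
    rw [map_add, map_pow, map_mul, map_ofNat] at this
    exact this
  have hrF : algebraMap k F (q : k) ^ 2 + algebraMap k F (m : k) = 4 * algebraMap k F (r : k) := by
    have := congrArg (algebraMap k F) hrk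
    rw [map_add, map_pow, map_mul, map_ofNat] at this
    exact this
  have hw2 : ((algebraMap k F (q : k) + s) / 2) ^ 2 - algebraMap k F (q : k) *
      ((algebraMap k F (q : k) + s) / 2) + algebraMap k F (r : k) = 0 := by
    linear_combination (1 / 4 : F) * hs - (1 / 4 : F) * hrF
  have hwint : IsIntegral ℤ ((algebraMap k F (q : k) + s) / 2) := by
    have h1 : IsIntegral (𝓞 k) ((algebraMap k F (q : k) + s) / 2) := by
      refine ⟨X ^ 2 - C q * X + C r, ?_, ?_⟩
      · have e : (X ^ 2 - C q * X + C r : (𝓞 k)[X]) = X ^ 2 + (-(C q * X) + C r) := by ring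
        rw [e]
        apply monic_X_pow_add
        refine lt_of_le_of_lt (degree_add_le _ _) ?_
        rw [degree_neg]
        apply max_lt
        · refine lt_of_le_of_lt (degree_C_mul_X_le q) ?_
          norm_num
        · refine lt_of_le_of_lt degree_C_le ?_
          norm_num
      · rw [← aeval_def]
        simp only [map_add, map_sub, map_mul, map_pow, aeval_X, aeval_C]
        rw [IsScalarTower.algebraMap_apply (𝓞 k) k F, IsScalarTower.algebraMap_apply (𝓞 k) k F]
        exact hw2
    exact isIntegral_trans _ h1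
  obtain ⟨w, hw⟩ : ∃ w : 𝓞 F, (w : F) = (algebraMap k F (q : k) + s) / 2 := ⟨⟨_, hwint⟩, rfl⟩
  have hwc : (w : F) - c w = s := by
    rw [hw, map_div₀, map_add, AlgEquiv.commutes, hcs, map_ofNat]
    ring
  refine ⟨w, hwc, ?_⟩
  intro x
  obtain ⟨y, hy⟩ := hsub x
  have hfx : c ((x : F) - algebraMap k F (y : k) * w) = (x : F) - algebraMap k F (y : k) * w := by
    rw [map_sub, map_mul, AlgEquiv.commutes]
    linear_combination algebraMap k F (y : k) * hwc - hy
  obtain ⟨p, hp⟩ := hfix _ hfx
  have hpint : IsIntegral ℤ p := by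
    apply int_down (F := F)
    rw [hp]
    exact (RingOfIntegers.isIntegral_coe x).sub
      ((RingOfIntegers.isIntegral_coe y).algebraMap.mul (RingOfIntegers.isIntegral_coe w))
  obtain ⟨p', hp'⟩ : ∃ p' : 𝓞 k, (p' : k) = p := ⟨⟨p, hpint⟩, rfl⟩
  refine ⟨p', y, ?_⟩
  rw [hp', hp]; ring

end Pool.Agent.LeoK.H77
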