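import Mathlib
import Pool.Agent.LeoK.StrStmts

set_option autoImplicit false

namespace Pool.Agent.LeoK.H77

section

variable {k : Type} [Field k]

/-- the symmetric trilinear form of the cubic form. -/
def tri (a b c d x₁ y₁ x₂ y₂ x₃ y₃ : k) : k :=
  a * (x₁ * x₂ * x₃) + b * (x₁ * x₂ * y₃ + x₁ * y₂ * x₃ + y₁ * x₂ * x₃) +
    c * (x₁ * y₂ * y₃ + y₁ * x₂ * y₃ + y₁ * y₂ * x₃) + d * (y₁ * y₂ * y₃)

lemma tri_diag (a b c d x y : k) : tri a b c d x y x y x y = cub a b c d x y := by
  unfold tri cub; ring

/-- invariance of the coefficients. -/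
structure Inv (a b c d x y z w : k) : Prop where
  c0 : tri a b c d x z x z x z = a
  c1 : tri a b c d x z x z y w = b
  c2 : tri a b c d x z y w y w = c
  c3 : tri a b c d y w y w y w = d

lemma inv_of [CharZero k] {a b c d x y z w : k}
    (h : ∀ X Y : k, cub a b c d (x * X + y * Y) (z * X + w * Y) = cub a b c d X Y) :
    Inv a b c d x y z w := by
  have h1 := h 1 0
  have h2 := h 0 1
  have h3 := h 1 1
  have h4 := h 1 (-1)
  simp only [cub] at h1 h2 h3 h4
  have h6 : (6 : k) ≠ 0 := by norm_num
  refine ⟨?_, ?_, ?_, ?_⟩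
  · unfold tri; linear_combination h1
  · apply mul_left_cancel₀ h6
    unfold tri; linear_combination h3 - h4 - 2 * h2
  · apply mul_left_cancel₀ h6
    unfold tri; linear_combination h3 + h4 - 2 * h1
  · unfold tri; linear_combination h2

lemma Inv.tri {a b c d x y z w : k} (h : Inv a b c d x y z w) (p q r s t u : k) :
    tri a b c d (x * p + y * q) (z * p + w * q) (x * r + y * s) (z * r + w * s)
      (x * t + y * u) (z * t + w * u) = H77.tri a b c d p q r s t u := by
  obtain ⟨h0, h1, h2, h3⟩ := h
  unfold H77.tri at *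
  linear_combination (p * r * t) * h0 + (p * r * u + p * s * t + q * r * t) * h1 +
    (p * s * u + q * r * u + q * s * t) * h2 + (q * s * u) * h3

/-- `T(Du, Dv, Dw) = T(u, v, w)` with the images named. -/
lemma Inv.tri' {a b c d x y z w : k} (h : Inv a b c d x y z w) {p q r s t u p' q' r' s' t' u' : k}
    (e1 : x * p + y * q = p') (e2 : z * p + w * q = q') (e3 : x * r + y * s = r')
    (e4 : z * r + w * s = s') (e5 : x * t + y * u = t') (e6 : z * t + w * u = u') :
    H77.tri a b c d p' q' r' s' t' u' = H77.tri a b c d p q r s t u := by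
  subst e1 e2 e3 e4 e5 e6
  exact h.tri p q r s t u

/-- The case of determinant one. -/
lemma stab_one [CharZero k] {a b c d : k} (hI : Irr a b c d)
    (hM : ∀ x : k, x ^ 2 ≠ 3 * fM a b c d) {x y z w : k} (hd : x * w - y * z = 1)
    (h : Inv a b c d x y z w) : x = 1 ∧ y = 0 ∧ z = 0 ∧ w = 1 := by
  have ha : a ≠ 0 := by
    intro h0
    have := (hI 1 0 (by unfold cub; rw [h0]; ring)).1
    exact one_ne_zero this
  -- the vector (1, 0) and its images
  by_cases ht : x + w = -1
  · exfalso
    -- `3 fM` is a square
    have key : ∀ p q : k, p * (z * p + w * q) - q * (x * p + y * q) = 0 := by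
      intro p q
      by_contra hΔ
      obtain ⟨A, hA⟩ : ∃ A, A = H77.tri a b c d p q p q p q := ⟨_, rfl⟩
      obtain ⟨B, hB⟩ : ∃ B, B = H77.tri a b c d p q p q (x * p + y * q) (z * p + w * q) := ⟨_, rfl⟩
      obtain ⟨C, hC⟩ : ∃ C, C = H77.tri a b c d p q (x * p + y * q) (z * p + w * q)
        (x * p + y * q) (z * p + w * q) := ⟨_, rfl⟩
      have hA' : H77.tri a b c d (x * p + y * q) (z * p + w * q) (x * p + y * q) (z * p + w * q)
        (x * p + y * q) (z * p + w * q) = A := by rw [hA]; exact h.tri p q p q p q
      have hD1 : x * (x * p + y * q) + y * (z * p + w * q) = - p - (x * p + y * q) := by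
        linear_combination (x * p + y * q) * ht - p * hd
      have hD2 : z * (x * p + y * q) + w * (z * p + w * q) = - q - (z * p + w * q) := by
        linear_combination (z * p + w * q) * ht - q * hd
      have hCr : C = - A - B := by
        -- T(v,v,D⁻¹v) = C and D⁻¹v = -v - Dv
        have h1 : H77.tri a b c d (x * p + y * q) (z * p + w * q) (x * p + y * q) (z * p + w * q) p q
            = H77.tri a b c d p q p q (-p - (x * p + y * q)) (-q - (z * p + w * q)) :=
          h.tri' rfl rfl rfl rfl (by linear_combination -hD1) (by linear_combination -hD2)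
        have h2 : H77.tri a b c d p q p q (-p - (x * p + y * q)) (-q - (z * p + w * q)) = -A - B := by
          rw [hA, hB]; unfold H77.tri; ring
        have h3 : H77.tri a b c d (x * p + y * q) (z * p + w * q) (x * p + y * q) (z * p + w * q) p q
            = C := by
          rw [hC]; unfold H77.tri; ring
        rw [h3, h2] at h1
        exact h1
      -- covariance of the Hessian discriminant
      have hcov : fM a b c d * (p * (z * p + w * q) - q * (x * p + y * q)) ^ 6 = fM A B C A := by
        have gen : ∀ p' q' : k, fM a b c d * (p * q' - q * p') ^ 6 =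
            fM (H77.tri a b c d p q p q p q) (H77.tri a b c d p q p q p' q')
              (H77.tri a b c d p q p' q' p' q') (H77.tri a b c d p' q' p' q' p' q') := by
          intro p' q'
          unfold fM fP fQ fR H77.tri
          ring
        have := gen (x * p + y * q) (z * p + w * q)
        rw [hA', ← hA, ← hB, ← hC] at this
        exact this
      obtain ⟨Δ, hΔdef⟩ : ∃ Δ, Δ = p * (z * p + w * q) - q * (x * p + y * q) := ⟨_, rfl⟩
      rw [← hΔdef] at hΔ hcov
      have hS : fM A B C A = 3 * (A ^ 2 + A * B + B ^ 2) ^ 2 := by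
        rw [hCr]; unfold fM fP fQ fR; ring
      apply hM (3 * (A ^ 2 + A * B + B ^ 2) / Δ ^ 3)
      have hΔ6 : (Δ ^ 3) ^ 2 ≠ 0 := pow_ne_zero _ (pow_ne_zero _ hΔ)
      rw [div_pow, div_eq_iff hΔ6]
      linear_combination -3 * hcov - 3 * hS
    have k1 := key 1 0
    have k2 := key 0 1
    have k3 := key 1 1
    have hz : z = 0 := by linear_combination k1
    have hy : y = 0 := by linear_combination -k2
    have hw : w = x := by rw [hz, hy] at k3; linear_combination k3
    rw [hz, hw] at hd
    rw [hw] at ht
    have : (3 : k) = 0 := by linear_combination (2 * x - 1) * ht - 4 * hd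
    exact three_ne_zero this
  · -- here the trace is 2
    have ht1 : x + w + 1 ≠ 0 := fun h0 => ht (by linear_combination h0)
    have ht2 : x + w = 2 := by
      obtain ⟨A, hA⟩ : ∃ A, A = H77.tri a b c d 1 0 1 0 1 0 := ⟨_, rfl⟩
      obtain ⟨B, hB⟩ : ∃ B, B = H77.tri a b c d 1 0 1 0 x z := ⟨_, rfl⟩
      obtain ⟨C, hC⟩ : ∃ C, C = H77.tri a b c d 1 0 x z x z := ⟨_, rfl⟩
      have hAa : A = a := by rw [hA]; unfold H77.tri; ring
      -- C = t A - B
      have hCr : C = (x + w) * A - B := by
        have h1 : H77.tri a b c d x z x z 1 0 = H77.tri a b c d 1 0 1 0 w (-z) :=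
          h.tri' (by ring) (by ring) (by ring) (by ring) (by linear_combination hd) (by ring)
        have h2 : H77.tri a b c d 1 0 1 0 w (-z) = (x + w) * A - B := by
          rw [hA, hB]; unfold H77.tri; ring
        have h3 : H77.tri a b c d x z x z 1 0 = C := by
          rw [hC]; unfold H77.tri; ring
        rw [← h3, h1, h2]
      -- B = T(v, D⁻¹v, D⁻¹v)
      have hB' : H77.tri a b c d 1 0 w (-z) w (-z) = B := by
        have h1 : H77.tri a b c d x z 1 0 1 0 = H77.tri a b c d 1 0 w (-z) w (-z) :=
          h.tri' (by ring) (by ring) (by linear_combination hd) (by ring)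
            (by linear_combination hd) (by ring)
        rw [← h1, hB]; unfold H77.tri; ring
      have hC' : H77.tri a b c d 1 0 1 0 w (-z) = C := by
        have h1 : H77.tri a b c d x z x z 1 0 = H77.tri a b c d 1 0 1 0 w (-z) :=
          h.tri' (by ring) (by ring) (by ring) (by ring) (by linear_combination hd) (by ring)
        rw [← h1, hC]; unfold H77.tri; ring
      obtain ⟨t, htdef⟩ : ∃ t, t = x + w := ⟨_, rfl⟩
      -- E1
      have E1 : t ^ 2 * C - 2 * t * B + A = t * C - A := by
        have h1 : H77.tri a b c d x z x z w (-z) = H77.tri a b c d 1 0 1 0 (t * w - 1) (-(t * z)) :=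
          h.tri' (by ring) (by ring) (by ring) (by ring)
            (by rw [htdef]; linear_combination (x + w) * hd) (by ring)
        have h2 : H77.tri a b c d (t * x - 1) (t * z) (t * x - 1) (t * z) 1 0 =
            H77.tri a b c d x z x z w (-z) :=
          h.tri' (by rw [htdef]; linear_combination -hd) (by rw [htdef]; ring)
            (by rw [htdef]; linear_combination -hd) (by rw [htdef]; ring)
            (by linear_combination hd) (by ring)
        have h3 : H77.tri a b c d (t * x - 1) (t * z) (t * x - 1) (t * z) 1 0 =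
            t ^ 2 * C - 2 * t * B + A := by
          rw [hA, hB, hC]; unfold H77.tri; ring
        have h4 : H77.tri a b c d 1 0 1 0 (t * w - 1) (-(t * z)) = t * C - A := by
          rw [← hC', hA]; unfold H77.tri; ring
        rw [← h3, h2, h1, h4]
      have E2 : t ^ 2 * B - 2 * t * C + A = t * B - A := by
        have h1 : H77.tri a b c d w (-z) w (-z) x z =
            H77.tri a b c d (t * w - 1) (-(t * z)) (t * w - 1) (-(t * z)) 1 0 :=
          h.tri' (by rw [htdef]; linear_combination (x + w) * hd) (by ring)
            (by rw [htdef]; linear_combination (x + w) * hd) (by ring) (by ring) (by ring)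
        have h2 : H77.tri a b c d 1 0 1 0 (t * x - 1) (t * z) =
            H77.tri a b c d w (-z) w (-z) x z :=
          h.tri' (by linear_combination hd) (by ring) (by linear_combination hd) (by ring)
            (by rw [htdef]; linear_combination -hd) (by rw [htdef]; ring)
        have h3 : H77.tri a b c d 1 0 1 0 (t * x - 1) (t * z) = t * B - A := by
          rw [hA, hB]; unfold H77.tri; ring
        have h4 : H77.tri a b c d (t * w - 1) (-(t * z)) (t * w - 1) (-(t * z)) 1 0 =
            t ^ 2 * B - 2 * t * C + A := by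
          rw [← hC', ← hB', hA]; unfold H77.tri; ring
        rw [← h4, ← h1, ← h2, h3]
      rw [← htdef] at hCr ht1 ⊢
      have hfin : A * (t + 1) * (t - 2) ^ 2 = 0 := by
        linear_combination E1 + E2 - (t ^ 2 - t - 2 * t) * hCr
      have hA0 : A ≠ 0 := by rw [hAa]; exact ha
      have h5 : (t - 2) ^ 2 = 0 := by
        rcases mul_eq_zero.1 hfin with h6 | h6
        · rcases mul_eq_zero.1 h6 with h7 | h7
          · exact absurd h7 hA0
          · exact absurd h7 ht1
        · exact h6
      have h6 : t - 2 = 0 := pow_eq_zero_iff (two_ne_zero) |>.1 h5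
      linear_combination h6
    -- D = 1 + N with N² = 0
    have hyz : y * z = x * w - 1 := by linear_combination -hd
    have hw : w = 2 - x := by linear_combination ht2
    have n1 : cub a b c d (x - 1) z = 0 := by
      have h1 : H77.tri a b c d x z (x - 1) z (x - 1) z = H77.tri a b c d 1 0 (x - 1) z (x - 1) z :=
        h.tri' (by ring) (by ring) (by rw [hw] at hyz; linear_combination hyz)
          (by rw [hw]; ring) (by rw [hw] at hyz; linear_combination hyz) (by rw [hw]; ring)
      rw [← tri_diag]
      have h2 : H77.tri a b c d (x - 1) z (x - 1) z (x - 1) z =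
          H77.tri a b c d x z (x - 1) z (x - 1) z - H77.tri a b c d 1 0 (x - 1) z (x - 1) z := by
        unfold H77.tri; ring
      rw [h2, h1, sub_self]
    have n2 : cub a b c d y (w - 1) = 0 := by
      have h1 : H77.tri a b c d y w y (w - 1) y (w - 1) = H77.tri a b c d 0 1 y (w - 1) y (w - 1) :=
        h.tri' (by ring) (by ring) (by rw [hw]; ring)
          (by rw [hw] at hyz ⊢; linear_combination hyz) (by rw [hw]; ring)
          (by rw [hw] at hyz ⊢; linear_combination hyz)
      rw [← tri_diag]
      have h2 : H77.tri a b c d y (w - 1) y (w - 1) y (w - 1) =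
          H77.tri a b c d y w y (w - 1) y (w - 1) - H77.tri a b c d 0 1 y (w - 1) y (w - 1) := by
        unfold H77.tri; ring
      rw [h2, h1, sub_self]
    obtain ⟨p1, p2⟩ := hI _ _ n1
    obtain ⟨p3, p4⟩ := hI _ _ n2
    exact ⟨by linear_combination p1, p3, p2, by linear_combination p4⟩

end

/-- STAB. -/
theorem stab : StabStmt := by
  intro k _ _ a b c d hI hM x y z w hdet hinv
  have h := inv_of hinv
  have hcase : x * w - y * z = 1 ∨ x * w - y * z = -1 := by
    have h0 : (x * w - y * z - 1) * (x * w - y * z + 1) = 0 := by linear_combination hdet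
    rcases mul_eq_zero.1 h0 with h1 | h1
    · left; linear_combination h1
    · right; linear_combination h1
  rcases hcase with hd | hd
  · exact stab_one hI hM hd h
  · exfalso
    -- the square of `D`
    have hinv2 : ∀ X Y : k, cub a b c d ((x * x + y * z) * X + (x * y + y * w) * Y)
        ((z * x + w * z) * X + (z * y + w * w) * Y) = cub a b c d X Y := by
      intro X Y
      have h1 := hinv (x * X + y * Y) (z * X + w * Y)
      rw [hinv X Y] at h1
      rw [← h1]
      congr 1 <;> ring
    obtain ⟨q1, q2, q3, q4⟩ := stab_one hI hM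
      (by linear_combination (x * w - y * z - 1) * hd) (inv_of hinv2)
    have t1 : x * (x + w) = 0 := by linear_combination q1 + hd
    have t2 : y * (x + w) = 0 := by linear_combination q2
    have t3 : w * (x + w) = 0 := by linear_combination q4 + hd
    have t0 : x + w = 0 := by linear_combination (x + w) * hd - w * t1 + z * t2
    have hw : w = -x := by linear_combination t0
    -- vector (x - 1, z) is an eigenvector for -1
    have n1 : cub a b c d (x - 1) z = 0 := by
      have h1 := hinv (x - 1) z
      have e1 : x * (x - 1) + y * z = -(x - 1) := by linear_combination q1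
      have e2 : z * (x - 1) + w * z = -z := by rw [hw]; ring
      rw [e1, e2] at h1
      have h2 : cub a b c d (-(x - 1)) (-z) = - cub a b c d (x - 1) z := by
        unfold cub; ring
      rw [h2] at h1
      have h3 : (2 : k) * cub a b c d (x - 1) z = 0 := by linear_combination -h1
      rcases mul_eq_zero.1 h3 with h4 | h4
      · exact absurd h4 two_ne_zero
      · exact h4
    have n2 : cub a b c d y (w - 1) = 0 := by
      have h1 := hinv y (w - 1)
      have e1 : x * y + y * (w - 1) = -y := by linear_combination q2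
      have e2 : z * y + w * (w - 1) = -(w - 1) := by linear_combination q4
      rw [e1, e2] at h1
      have h2 : cub a b c d (-y) (-(w - 1)) = - cub a b c d y (w - 1) := by
        unfold cub; ring
      rw [h2] at h1
      have h3 : (2 : k) * cub a b c d y (w - 1) = 0 := by linear_combination -h1
      rcases mul_eq_zero.1 h3 with h4 | h4
      · exact absurd h4 two_ne_zero
      · exact h4
    obtain ⟨p1, p2⟩ := hI _ _ n1
    obtain ⟨p3, p4⟩ := hI _ _ n2
    have : (2 : k) = 0 := by linear_combination t0 - p1 - p4
    exact two_ne_zero this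

/-- ORB. -/
theorem orb : OrbStmt := by
  intro k _ _ a b c d hI hM x y z w x' y' z' w' t h1 h2 h
  -- `D = M' T M⁻¹` with `M⁻¹ = δ adj M`
  obtain ⟨δ, hδ⟩ : ∃ δ, δ = x * w - y * z := ⟨_, rfl⟩
  have hδ2 : δ ^ 2 = 1 := by rw [hδ]; exact h1
  obtain ⟨δ', hδ'⟩ : ∃ δ', δ' = x' * w' - y' * z' := ⟨_, rfl⟩
  have hδ'2 : δ' ^ 2 = 1 := by rw [hδ']; exact h2
  -- second column of `M' T`
  obtain ⟨r, hr⟩ : ∃ r, r = x' * t + y' := ⟨_, rfl⟩
  obtain ⟨s, hs⟩ : ∃ s, s = z' * t + w' := ⟨_, rfl⟩
  have hrs : x' * s - r * z' = δ' := by rw [hr, hs, hδ']; ring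
  have hinv : ∀ X Y : k, cub a b c d ((δ * (x' * w - r * z)) * X + (δ * (-(x' * y) + r * x)) * Y)
      ((δ * (z' * w - s * z)) * X + (δ * (-(z' * y) + s * x)) * Y) = cub a b c d X Y := by
    intro X Y
    have h3 := h (δ * (w * X - y * Y)) (δ * (-(z * X) + x * Y))
    have e1 : x * (δ * (w * X - y * Y)) + y * (δ * (-(z * X) + x * Y)) = X := by
      linear_combination -(δ * X) * hδ + X * hδ2
    have e2 : z * (δ * (w * X - y * Y)) + w * (δ * (-(z * X) + x * Y)) = Y := by
      linear_combination -(δ * Y) * hδ + Y * hδ2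
    rw [e1, e2] at h3
    rw [h3]
    congr 1
    · rw [hr]; ring
    · rw [hs]; ring
  have hdet : ((δ * (x' * w - r * z)) * (δ * (-(z' * y) + s * x)) -
      (δ * (-(x' * y) + r * x)) * (δ * (z' * w - s * z))) ^ 2 = 1 := by
    have e : (δ * (x' * w - r * z)) * (δ * (-(z' * y) + s * x)) -
      (δ * (-(x' * y) + r * x)) * (δ * (z' * w - s * z)) = δ ^ 2 * ((x * w - y * z) * (x' * s - r * z')) := by
      ring
    rw [e, hrs, ← hδ, hδ2]
    linear_combination δ' ^ 2 * hδ2 + hδ'2
  obtain ⟨s1, s2, s3, s4⟩ := stab k a b c d hI hM _ _ _ _ hdet hinv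
  -- hence `M = M' T`
  have m1 : x' = x := by linear_combination x * s1 + z * s2 + x' * δ * hδ - x' * hδ2
  have m2 : z' = z := by linear_combination x * s3 + z * s4 + z' * δ * hδ - z' * hδ2
  have m3 : r = y := by linear_combination y * s1 + w * s2 + r * δ * hδ - r * hδ2
  have m4 : s = w := by linear_combination y * s3 + w * s4 + s * δ * hδ - s * hδ2
  refine ⟨m1.symm, m2.symm, ?_⟩
  have e : x' * w' - y' * z' = x' * s - r * z' := by rw [hr, hs]; ring
  rw [e, m1, m2, m3, m4]

end Pool.Agent.LeoK.H77
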